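import Pool.Agent.Helper4.HZ.Goals

/-!
# Genera with a unique Hurwitz surface: packet BCB
-/

namespace Pool.Agent.Helper2.HZ

open Pool.Agent.Helper4.HZ

variable {G : Type} [Group G] [Finite G] {p : ℕ}

open Classical in
/-- the sum of the elements satisfying `P` -/
noncomputable def ind (p : ℕ) (P : G → Prop) : MonoidAlgebra (ZMod p) G :=
  MonoidAlgebra.ofCoeff (Finsupp.equivFunOnFinite.symm fun g => if P g then 1 else 0)

open Classical in
theorem ind_coeff (P : G → Prop) (h : G) : (ind p P).coeff h = if P h then 1 else 0 := by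
  rw [ind, MonoidAlgebra.coeff_ofCoeff, Finsupp.equivFunOnFinite_symm_apply_apply]

theorem ind_comm (P : G → Prop) (hP : ∀ g x : G, P (g * x * g⁻¹) ↔ P x) (g : G) :
    Commute (ind p P) (MonoidAlgebra.single g 1) := by
  classical
  rw [Commute, SemiconjBy]
  ext h
  have e1 : (ind p P * MonoidAlgebra.single g 1).coeff h = (ind p P).coeff (h * g⁻¹) * 1 :=
    MonoidAlgebra.coeff_mul_single_eq_coeff_mul _ (fun m' _ => by
      constructor
      · intro h1; rw [← h1]; group
      · intro h1; rw [h1]; group)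
  have e2 : (MonoidAlgebra.single g 1 * ind p P).coeff h = 1 * (ind p P).coeff (g⁻¹ * h) :=
    MonoidAlgebra.coeff_single_mul_eq_mul_coeff _ (fun m' _ => by
      constructor
      · intro h1; rw [← h1]; group
      · intro h1; rw [h1]; group)
  rw [e1, e2, mul_one, one_mul, ind_coeff, ind_coeff]
  have h3 := hP g (g⁻¹ * h)
  have h4 : g * (g⁻¹ * h) * g⁻¹ = h * g⁻¹ := by group
  rw [h4] at h3
  simp only [h3]

theorem comm_all (u : MonoidAlgebra (ZMod p) G)
    (hu : ∀ g : G, Commute u (MonoidAlgebra.single g 1)) (v : MonoidAlgebra (ZMod p) G) :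
    Commute u v := by
  induction v using MonoidAlgebra.induction_linear with
  | zero => exact Commute.zero_right _
  | add x y hx hy => exact hx.add_right hy
  | single m r =>
    have : MonoidAlgebra.single m r = r • (MonoidAlgebra.single m 1 : MonoidAlgebra (ZMod p) G) := by
      rw [MonoidAlgebra.smul_single', mul_one]
    rw [this]
    exact (hu m).smul_right r

theorem ind_pow (h : S_BCA) [Fact p.Prime] (hp : ¬ p ∣ Nat.card G)
    (hc : (Nat.card G).Coprime p) (P : G → Prop) (hP : ∀ g x : G, P (g * x * g⁻¹) ↔ P x)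
    (hPp : ∀ x : G, P (x ^ p) ↔ P x) : ind p P ^ p = ind p P := by
  classical
  ext k
  obtain ⟨x, rfl⟩ := (powCoprime hc).surjective k
  have h1 := h G p hp (ind p P) (ind_comm P hP) x
  have h2 : (powCoprime hc) x = x ^ p := rfl
  rw [h2, h1, ind_coeff, ind_coeff]
  simp only [hPp]

theorem ind_mul [Fact p.Prime] (P Q : G → Prop) (h : G) :
    (ind p P * ind p Q).coeff h =
      (Nat.card {q : G × G // P q.1 ∧ Q q.2 ∧ q.1 * q.2 = h} : ZMod p) := by
  classical
  have := Fintype.ofFinite G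
  rw [MonoidAlgebra.coeff_mul_antidiag (ind p P) (ind p Q) h
    ((Finset.univ : Finset (G × G)).filter fun q => q.1 * q.2 = h) (by simp)]
  rw [Nat.card_eq_fintype_card, Fintype.card_subtype, Finset.card_filter, Finset.sum_filter]
  push_cast
  refine Finset.sum_congr rfl fun q _ => ?_
  rw [ind_coeff, ind_coeff]
  by_cases h1 : P q.1 <;> by_cases h2 : Q q.2 <;> by_cases h3 : q.1 * q.2 = h <;> simp [h1, h2, h3]

theorem card_le (P Q : G → Prop) (h : G) :
    Nat.card {q : G × G // P q.1 ∧ Q q.2 ∧ q.1 * q.2 = h} ≤ Nat.card G := by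
  refine Nat.card_le_card_of_injective (fun q => q.1.1) ?_
  rintro ⟨⟨a, b⟩, h1, h2, h3⟩ ⟨⟨a', b'⟩, h1', h2', h3'⟩ he
  simp only at he h3 h3'
  subst he
  have : b = b' := mul_left_cancel (h3.trans h3'.symm)
  subst this
  rfl

theorem BCB_holds (h : S_BCA) : S_BCB := by
  intro G _ _ i hi g
  have hG : 0 < Nat.card G := Nat.card_pos
  obtain ⟨p, hpG, hp, hmod⟩ := Nat.forall_exists_prime_gt_and_modEq (Nat.card G) hG.ne' hi
  have : Fact p.Prime := ⟨hp⟩
  have hnd : ¬ p ∣ Nat.card G := Nat.not_dvd_of_pos_of_lt hG hpG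
  have hc : (Nat.card G).Coprime p := ((Nat.Prime.coprime_iff_not_dvd hp).mpr hnd).symm
  have e1 : g ^ i = g ^ p := by
    rw [pow_eq_pow_iff_modEq]
    exact (hmod.symm.of_dvd (orderOf_dvd_natCard g))
  have hinj : ∀ x : G, x ^ p = 1 ↔ x = 1 := by
    intro x
    constructor
    · intro hx
      apply (powCoprime hc).injective
      change x ^ p = 1 ^ p
      rw [hx, one_pow]
    · rintro rfl
      exact one_pow p
  have hconj : ∀ (n : ℕ) (g x : G), (g * x * g⁻¹) ^ n = 1 ↔ x ^ n = 1 := by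
    intro n g x
    rw [conj_pow]
    constructor
    · intro h1
      have : x ^ n = g⁻¹ * (g * x ^ n * g⁻¹) * g := by group
      rw [this, h1]; group
    · intro h1
      rw [h1]; group
  have hpow : ∀ (n : ℕ) (x : G), (x ^ p) ^ n = 1 ↔ x ^ n = 1 := by
    intro n x
    rw [← pow_mul, mul_comm, pow_mul]
    exact hinj _
  set uA := ind p (fun x : G => x ^ 2 = 1) with huA
  set uB := ind p (fun x : G => x ^ 3 = 1) with huB
  have hA : uA ^ p = uA := ind_pow h hnd hc _ (hconj 2) (hpow 2)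
  have hB : uB ^ p = uB := ind_pow h hnd hc _ (hconj 3) (hpow 3)
  have cA := ind_comm (p := p) (fun x : G => x ^ 2 = 1) (hconj 2)
  have cB := ind_comm (p := p) (fun x : G => x ^ 3 = 1) (hconj 3)
  have hAB : (uA * uB) ^ p = uA * uB := by
    rw [(comm_all uA cA uB).mul_pow, hA, hB]
  have h1 := h G p hnd (uA * uB) (fun x => (cA x).mul_left (cB x)) g
  rw [hAB, huA, huB, ind_mul, ind_mul, ← e1] at h1
  rw [ZMod.natCast_eq_natCast_iff'] at h1
  have c1 := lt_of_le_of_lt
    (card_le (fun x : G => x ^ 2 = 1) (fun x : G => x ^ 3 = 1) (g ^ i)) hpG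
  have c2 := lt_of_le_of_lt
    (card_le (fun x : G => x ^ 2 = 1) (fun x : G => x ^ 3 = 1) g) hpG
  rw [Nat.mod_eq_of_lt c1, Nat.mod_eq_of_lt c2] at h1
  exact h1

end Pool.Agent.Helper2.HZ
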